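import Pool.Agent.N31.LoopOdd

/-!
# The local loop lemma for odd cycles

A symmetric relation `R` with an odd cycle through `c 0`, an idempotent compatible operation `f`
under which the neighbourhood of `c 0` absorbs the set with the single element `c 0`: then `R` has
a loop.
-/

set_option autoImplicit false

universe u

namespace Pool.Agent.Results.MP_511665_al.OddCycleLoop

/-- Let `R` be a symmetric relation on `A` and `c 0, ..., c (l - 1)` a closed walk of odd length
`l` of `R`.  Let `f` be an idempotent operation of arity `n ≥ 1` which is compatible with `R` and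
such that the neighbourhood of `c 0` absorbs the singleton of `c 0` with respect to `f`.  Then `R`
has a loop at some `x`, and `x` can be reached from `c 0` along `R`. -/
theorem result {A : Type u} (R : A → A → Prop) (hsymm : ∀ x y, R x y → R y x)
    (l : ℕ) (hodd : Odd l) (c : ℕ → A)
    (hcyc : ∀ i, i + 1 < l → R (c i) (c (i + 1))) (hclose : R (c (l - 1)) (c 0))
    (n : ℕ) (hn : 1 ≤ n) (f : (Fin n → A) → A)
    (hidem : ∀ x, f (fun _ => x) = x)
    (hcomp : ∀ x y : Fin n → A, (∀ i, R (x i) (y i)) → R (f x) (f y))
    (habs : ∀ (j : Fin n) (b : Fin n → A), (∀ i, R (c 0) (b i)) →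
      R (c 0) (f (Function.update b j (c 0)))) :
    ∃ x, Relation.ReflTransGen R (c 0) x ∧ R x x := by
  obtain ⟨m, hm⟩ := hodd
  have hG : Pool.Agent.N31.LoopOdd.Good R f (c 0) := ⟨hsymm, hidem, hcomp, habs⟩
  have hW : Pool.Agent.N31.LoopOdd.W R (2 * m + 1) (c 0) (c 0) := by
    have h := Pool.Agent.N31.LoopOdd.W_of_fun (R := R) (2 * m + 1)
      (fun i => if i < l then c i else c 0) (by
        intro i hi
        have h1 : i < l := by omega
        by_cases h2 : i + 1 < l
        · simp only [h1, h2, if_true]
          exact hcyc i h2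
        · have h3 : i = l - 1 := by omega
          simp only [h1, h2, if_true, if_false]
          rw [h3]
          exact hclose)
    have h4 : (0 : ℕ) < l := by omega
    have h5 : ¬ (2 * m + 1 < l) := by omega
    simpa [h4, h5] using h
  obtain ⟨x, K, hx, hxx⟩ := Pool.Agent.N31.LoopOdd.main (by omega) m R hG hW
  exact ⟨x, Pool.Agent.N31.LoopOdd.W_reach K _ _ hx, hxx⟩

end Pool.Agent.Results.MP_511665_al.OddCycleLoop
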